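import Pool.Agent.TH197.Sym.Bounds

/-!
# Corner-free sets invariant under permutations of blocks

We view `(F_2^{dn})^2` as the set of words of length `n` over the alphabet `(F_2^d)^2` and look at
the corner-free sets that are invariant under many permutations of the `n` letters. Their
exponential growth rate is the solution of a finite problem: it is the largest size `M d` of a set
`S ⊆ (F_2^d)^2` which carries no balanced weight on its nontrivial corners.
-/

set_option autoImplicit false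
set_option linter.unusedSectionVars false

namespace Pool.Agent.Results.MP_db4732_co.BlockSymmetricGrowth

open Finset Equiv Filter Topology

/-- `A ⊆ (F_2^n)^2` contains no nontrivial corner `(x, y), (x, y + z), (x + z, y)`, `z ≠ 0`. -/
def CornerFree (n : ℕ) (A : Finset ((Fin n → ZMod 2) × (Fin n → ZMod 2))) : Prop :=
  ∀ x y z : Fin n → ZMod 2, (x, y) ∈ A → (x, y + z) ∈ A → (x + z, y) ∈ A → z = 0

/-- The largest size of a corner-free subset of `(F_2^n)^2`. -/
noncomputable def r (n : ℕ) : ℕ :=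
  sSup {m : ℕ | ∃ A : Finset ((Fin n → ZMod 2) × (Fin n → ZMod 2)), CornerFree n A ∧ A.card = m}

/-- The power-saving bound of the problem. -/
def PowerSaving : Prop :=
  ∃ C c : ℝ, 0 < C ∧ 0 < c ∧ ∀ n : ℕ, 1 ≤ n →
    ∀ A : Finset ((Fin n → ZMod 2) × (Fin n → ZMod 2)), CornerFree n A →
      (A.card : ℝ) ≤ C * 4 ^ ((1 - c) * (n : ℝ))

/-- The same as `CornerFree` in `(F_2^{dn})^2`, where the elements of `F_2^{dn}` are written as
sequences of `n` blocks of length `d`. -/
def BlockCornerFree (d n : ℕ)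
    (A : Finset ((Fin n → Fin d → ZMod 2) × (Fin n → Fin d → ZMod 2))) : Prop :=
  ∀ x y z : Fin n → Fin d → ZMod 2, (x, y) ∈ A → (x, y + z) ∈ A → (x + z, y) ∈ A → z = 0

/-- `A` is invariant under the permutation `σ` of the `n` blocks (of `x` and of `y`). -/
def Inv (d n : ℕ) (σ : Perm (Fin n))
    (A : Finset ((Fin n → Fin d → ZMod 2) × (Fin n → Fin d → ZMod 2))) : Prop :=
  ∀ p ∈ A, ((fun i => p.1 (σ i)), (fun i => p.2 (σ i))) ∈ A

/-- The largest size of a corner-free subset of `(F_2^{dn})^2` that is invariant under all the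
permutations of the `n` blocks of length `d`. -/
noncomputable def rblk (d n : ℕ) : ℕ :=
  sSup {m : ℕ | ∃ A : Finset ((Fin n → Fin d → ZMod 2) × (Fin n → Fin d → ZMod 2)),
    BlockCornerFree d n A ∧ (∀ σ : Perm (Fin n), Inv d n σ A) ∧ A.card = m}

/-- `S ⊆ (F_2^d)^2` carries a balanced weight: a function `w ≠ 0` with values in `ℕ` on the
nontrivial corners `(x, y), (x, y + z), (x + z, y)`, `z ≠ 0`, with all three points in `S`, such
that for every `s` the sum of `w` over the corners with first point `s`, the sum over those with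
second point `s` and the sum over those with third point `s` are equal. -/
def Balanced (d : ℕ) (S : Finset ((Fin d → ZMod 2) × (Fin d → ZMod 2))) : Prop :=
  ∃ w : ((Fin d → ZMod 2) × (Fin d → ZMod 2)) × (Fin d → ZMod 2) → ℕ, (∃ q, w q ≠ 0) ∧
    (∀ q, w q ≠ 0 → q.2 ≠ 0 ∧ q.1 ∈ S ∧ (q.1.1, q.1.2 + q.2) ∈ S ∧ (q.1.1 + q.2, q.1.2) ∈ S) ∧
    ∀ s, ((∑ q, if (q.1.1, q.1.2 + q.2) = s then w q else 0) = ∑ q, if q.1 = s then w q else 0) ∧
      (∑ q, if (q.1.1 + q.2, q.1.2) = s then w q else 0) = ∑ q, if q.1 = s then w q else 0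

/-- The largest size of a subset of `(F_2^d)^2` that carries no balanced weight. -/
noncomputable def M (d : ℕ) : ℕ :=
  sSup {m : ℕ | ∃ S : Finset ((Fin d → ZMod 2) × (Fin d → ZMod 2)), ¬ Balanced d S ∧ S.card = m}

/-- an abbreviation used in the proofs -/
abbrev V (d : ℕ) := Fin d → ZMod 2

/-- the three points of a corner -/
def F (d : ℕ) : Fin 3 → (V d × V d) × V d → V d × V d :=
  ![fun q => q.1, fun q => (q.1.1, q.1.2 + q.2), fun q => (q.1.1 + q.2, q.1.2)]

/-- nontrivial corners -/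
def nt (d : ℕ) (q : (V d × V d) × V d) : Prop := q.2 ≠ 0

lemma card_V (d : ℕ) : Fintype.card (V d) = 2 ^ d := by
  rw [Fintype.card_fun, ZMod.card, Fintype.card_fin]

lemma card_VV (d : ℕ) : Fintype.card (V d × V d) = 4 ^ d := by
  rw [Fintype.card_prod, card_V, ← mul_pow]
  norm_num

lemma balanced_iff (d : ℕ) (S : Finset (V d × V d)) :
    Balanced d S ↔ TH197.Sym.Balanced (F d) (nt d) S := by
  constructor
  · rintro ⟨w, h1, h2, h3⟩
    refine ⟨w, h1, fun q hq => ⟨(h2 q hq).1, ?_⟩, ?_⟩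
    · intro i
      fin_cases i
      · exact (h2 q hq).2.1
      · exact (h2 q hq).2.2.1
      · exact (h2 q hq).2.2.2
    · have key : ∀ (i : Fin 3) (s : V d × V d), (∑ q, if F d i q = s then w q else 0) =
          ∑ q, if q.1 = s then w q else 0 := by
        intro i s
        fin_cases i
        · rfl
        · exact (h3 s).1
        · exact (h3 s).2
      intro i j s
      rw [key i s, key j s]
  · rintro ⟨w, h1, h2, h3⟩
    refine ⟨w, h1, fun q hq => ⟨(h2 q hq).1, (h2 q hq).2 0, (h2 q hq).2 1, (h2 q hq).2 2⟩, ?_⟩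
    intro s
    exact ⟨h3 1 0 s, h3 2 0 s⟩

/-- pairs of words and words of pairs -/
def wd (d n : ℕ) : (Fin n → V d) × (Fin n → V d) ≃ (Fin n → V d × V d) where
  toFun p c := (p.1 c, p.2 c)
  invFun u := (fun c => (u c).1, fun c => (u c).2)
  left_inv _ := rfl
  right_inv _ := rfl

lemma mem_map_wd {d n : ℕ} {A : Finset ((Fin n → V d) × (Fin n → V d))} {u : Fin n → V d × V d} :
    u ∈ A.map (wd d n).toEmbedding ↔ ((fun c => (u c).1), fun c => (u c).2) ∈ A := by
  rw [Finset.mem_map_equiv]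
  rfl

lemma free_map {d n : ℕ} {A : Finset ((Fin n → V d) × (Fin n → V d))}
    (hA : BlockCornerFree d n A) :
    TH197.Sym.Free (F d) (nt d) (A.map (wd d n).toEmbedding) := by
  intro q hq c hc
  have h0 := mem_map_wd.1 (hq 0)
  have h1 := mem_map_wd.1 (hq 1)
  have h2 := mem_map_wd.1 (hq 2)
  have h3 := hA (fun c => (q c).1.1) (fun c => (q c).1.2) (fun c => (q c).2) h0 h1 h2
  exact hc (congrFun h3 c)

lemma bfree_of_free {d n : ℕ} {A : Finset (Fin n → V d × V d)}
    (hA : TH197.Sym.Free (F d) (nt d) A) :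
    BlockCornerFree d n (A.map (wd d n).symm.toEmbedding) := by
  intro x y z h0 h1 h2
  rw [Finset.mem_map_equiv] at h0 h1 h2
  have h3 := hA (fun c => ((x c, y c), z c)) (by
    intro i
    fin_cases i
    · exact h0
    · exact h1
    · exact h2)
  funext c
  by_contra hc
  exact h3 c hc

lemma M_bdd (d : ℕ) : BddAbove {m : ℕ | ∃ S : Finset (V d × V d), ¬ Balanced d S ∧ S.card = m} := by
  refine ⟨Fintype.card (V d × V d), ?_⟩
  rintro m ⟨B, _, rfl⟩
  exact Finset.card_le_univ B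

lemma le_M {d : ℕ} {S : Finset (V d × V d)} (hS : ¬ Balanced d S) : S.card ≤ M d :=
  le_csSup (M_bdd d) ⟨S, hS, rfl⟩

lemma unbalanced_of_free {d : ℕ} {S : Finset (V d × V d)} (hS : CornerFree d S) :
    ¬ Balanced d S := by
  rintro ⟨w, ⟨q, hq⟩, h, _⟩
  obtain ⟨h1, h2, h3, h4⟩ := h q hq
  exact h1 (hS q.1.1 q.1.2 q.2 h2 h3 h4)

lemma exists_M (d : ℕ) : ∃ S : Finset (V d × V d), ¬ Balanced d S ∧ S.card = M d :=
  Nat.sSup_mem (s := {m : ℕ | ∃ S : Finset (V d × V d), ¬ Balanced d S ∧ S.card = m})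
    ⟨0, ∅, unbalanced_of_free (by intro x y z h; simp at h), rfl⟩ (M_bdd d)

lemma r_le_M (d : ℕ) : r d ≤ M d := by
  apply csSup_le'
  rintro t ⟨A, hA, rfl⟩
  exact le_M (unbalanced_of_free hA)

lemma one_le_M (d : ℕ) : 1 ≤ M d := by
  have h1 : ¬ Balanced d {(0, 0)} := unbalanced_of_free (by
    intro x y z h0 h1 _
    rw [Finset.mem_singleton, Prod.mk.injEq] at h0 h1
    rw [h0.2] at h1
    simpa using h1.2)
  have := le_M h1
  rwa [Finset.card_singleton] at this

lemma M_le_card (d : ℕ) : M d ≤ Fintype.card (V d × V d) := by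
  obtain ⟨S, _, hS⟩ := exists_M d
  rw [← hS]
  exact Finset.card_le_univ S

lemma hmax (d : ℕ) (S : Finset (V d × V d)) (hS : ¬ TH197.Sym.Balanced (F d) (nt d) S) :
    S.card ≤ M d := le_M (fun h => hS ((balanced_iff d S).1 h))

lemma hτ (d : ℕ) (i : Fin 3) (v : V d × V d) : F d i (v, 0) = v := by
  fin_cases i
  · rfl
  · show (v.1, v.2 + 0) = v
    rw [add_zero]
  · show (v.1 + 0, v.2) = v
    rw [add_zero]

lemma htriv (d : ℕ) (q : (V d × V d) × V d) (hq : ¬ nt d q) (i j : Fin 3) :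
    F d i q = F d j q := by
  obtain ⟨v, z⟩ := q
  have hz : z = 0 := by
    by_contra h
    exact hq h
  subst hz
  rw [hτ, hτ]

lemma rblk_bdd (d n : ℕ) : BddAbove {m : ℕ | ∃ A : Finset ((Fin n → V d) × (Fin n → V d)),
    BlockCornerFree d n A ∧ (∀ σ : Perm (Fin n), Inv d n σ A) ∧ A.card = m} := by
  refine ⟨Fintype.card ((Fin n → V d) × (Fin n → V d)), ?_⟩
  rintro m ⟨B, _, _, rfl⟩
  exact Finset.card_le_univ B

lemma rblk_upper (d : ℕ) : ∃ C : ℕ, ∀ n : ℕ, 1 ≤ n → rblk d n ≤ C * n ^ C * M d ^ n := by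
  obtain ⟨C, hC⟩ := TH197.Sym.upper (F := F d) (nt := nt d) 0 (fun v => (v, 0)) (hτ d) (M d)
    (one_le_M d) (M_le_card d) (hmax d)
  refine ⟨C, fun n hn => ?_⟩
  apply csSup_le'
  rintro t ⟨A, hA, hS, rfl⟩
  have h1 := hC n (A.map (wd d n).toEmbedding) hn (free_map hA) (by
    intro σ x hx
    rw [mem_map_wd] at hx ⊢
    exact hS σ _ hx)
  rwa [Finset.card_map] at h1

lemma rblk_lower (d n : ℕ) : M d ^ n ≤ (n + 1) ^ (4 ^ d) * rblk d n := by
  obtain ⟨S, hS, hc⟩ := exists_M d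
  obtain ⟨A, hA, hSy, h1⟩ := TH197.Sym.lower (F := F d) (nt := nt d) (htriv d) 0 S
    (fun h => hS ((balanced_iff d S).2 h)) n
  rw [hc, card_VV] at h1
  refine h1.trans (Nat.mul_le_mul_left _ ?_)
  refine le_csSup (rblk_bdd d n) ⟨A.map (wd d n).symm.toEmbedding, bfree_of_free hA, ?_, ?_⟩
  · intro σ p hp
    rw [Finset.mem_map_equiv] at hp ⊢
    exact hSy σ _ hp
  · rw [Finset.card_map]

lemma card_real (d : ℕ) : (Fintype.card (V d × V d) : ℝ) = 4 ^ d := by
  rw [card_VV]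
  push_cast
  rfl

lemma local_bound (d : ℕ) {ε : ℝ} (hε : 0 < ε) :
    ∃ T : ℕ, ∀ (n : ℕ) (c : Fin n → Fin n)
      (A : Finset ((Fin n → Fin d → ZMod 2) × (Fin n → Fin d → ZMod 2))),
      BlockCornerFree d n A → (∀ σ : Perm (Fin n), (∀ i, c (σ i) = c i) → Inv d n σ A) →
      ∀ m : ℕ, m = (univ.filter fun i => T ≤ (univ.filter fun j => c j = c i).card).card →
      (A.card : ℝ) ≤ (M d + ε) ^ m * ((4 : ℝ) ^ d) ^ (n - m) := by
  obtain ⟨T, hT⟩ := TH197.Sym.classes (F := F d) (nt := nt d) 0 (fun v => (v, 0)) (hτ d) (M d)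
    (one_le_M d) (M_le_card d) (hmax d) hε
  refine ⟨T, fun n c A hA hc m hm => ?_⟩
  have h1 := hT n (Fin n) c (A.map (wd d n).toEmbedding) (free_map hA) (fun i j hij x hx => by
    rw [mem_map_wd] at hx ⊢
    exact hc (swap i j) (fun z => by
      rw [swap_apply_def]
      split_ifs with e1 e2
      · rw [e1, hij]
      · rw [e2, hij]
      · rfl) _ hx) m hm
  rwa [card_real, Finset.card_map] at h1

lemma large_bound (d : ℕ) {ε : ℝ} (hε : 0 < ε) :
    ∃ δ : ℝ, 0 < δ ∧ ∃ n₀ : ℕ, ∀ n : ℕ, n₀ ≤ n → ∀ H : Subgroup (Perm (Fin n)),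
      (H.index : ℝ) ≤ (n.factorial : ℝ) ^ δ →
      ∀ A : Finset ((Fin n → Fin d → ZMod 2) × (Fin n → Fin d → ZMod 2)),
      BlockCornerFree d n A → (∀ σ ∈ H, Inv d n σ A) → (A.card : ℝ) ≤ (M d + ε) ^ n := by
  obtain ⟨δ, hδ, n₀, h⟩ := TH197.Sym.large (F := F d) (nt := nt d) 0 (fun v => (v, 0)) (hτ d)
    (M d) (one_le_M d) (M_le_card d) (hmax d) hε
  refine ⟨δ, hδ, n₀, fun n hn H hH A hA hA2 => ?_⟩
  have h1 := h n hn (A.map (wd d n).toEmbedding) H (free_map hA) (fun σ hσ x hx => by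
    rw [mem_map_wd] at hx ⊢
    exact hA2 σ hσ _ hx) hH
  rwa [Finset.card_map] at h1

/-! ### Bounds for `M` -/

lemma add_self_V {d : ℕ} (z : V d) : z + z = 0 := by
  funext i
  exact CharTwo.add_self_eq_zero (z i)

/-- the four points of a square -/
def sq {d : ℕ} (z p : V d × V d) : Prop :=
  (p.1 = z.1 ∨ p.1 = z.1 + 1) ∧ (p.2 = z.2 ∨ p.2 = z.2 + 1)

lemma add_one_or {d : ℕ} (a b : V d) : (a + 1 = b ∨ a + 1 = b + 1) ↔ (a = b ∨ a = b + 1) := by
  constructor
  · rintro (h | h)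
    · right
      rw [← h, add_assoc, add_self_V, add_zero]
    · left
      exact add_right_cancel h
  · rintro (h | h)
    · right
      rw [h]
    · left
      rw [h, add_assoc, add_self_V, add_zero]

open Classical in
lemma balanced_of_square {d : ℕ} (hd : 1 ≤ d) (S : Finset (V d × V d)) (z : V d × V d)
    (hz : ∀ p, sq z p → p ∈ S) : Balanced d S := by
  have h10 : (1 : V d) ≠ 0 := by
    intro h
    have := congrFun h ⟨0, hd⟩
    simp at this
  refine ⟨fun q => if q.2 = 1 ∧ sq z q.1 then 1 else 0, ⟨(z, 1), ?_⟩, ?_, ?_⟩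
  · show (if (1 : V d) = 1 ∧ sq z z then 1 else 0) ≠ 0
    rw [if_pos ⟨rfl, Or.inl rfl, Or.inl rfl⟩]
    exact one_ne_zero
  · intro q hq
    have hq' : q.2 = 1 ∧ sq z q.1 := by
      by_contra h
      exact hq (if_neg h)
    obtain ⟨h1, h2, h3⟩ := hq'
    refine ⟨by rw [h1]; exact h10, hz _ ⟨h2, h3⟩, hz _ ⟨h2, ?_⟩, hz _ ⟨?_, h3⟩⟩
    · rw [h1]
      exact (add_one_or _ _).2 h3
    · rw [h1]
      exact (add_one_or _ _).2 h2
  · intro s
    have key : ∀ (f : (V d × V d) × V d → V d × V d) (g : V d × V d),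
        (∀ q : (V d × V d) × V d, q.2 = 1 → (f q = s ↔ q.1 = g)) → (sq z g ↔ sq z s) →
        (∑ q : (V d × V d) × V d, if f q = s then (if q.2 = 1 ∧ sq z q.1 then 1 else 0) else 0) =
          if sq z s then 1 else 0 := by
      intro f g hf hg
      rw [Finset.sum_eq_single (g, (1 : V d))]
      · rw [if_pos ((hf (g, 1) rfl).2 rfl)]
        by_cases h : sq z s
        · rw [if_pos h, if_pos ⟨rfl, hg.2 h⟩]
        · rw [if_neg h, if_neg (fun h' => h (hg.1 h'.2))]
      · intro q _ hq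
        by_cases h1 : f q = s
        · rw [if_pos h1]
          apply if_neg
          rintro ⟨h2, _⟩
          apply hq
          rw [← (hf q h2).1 h1, ← h2]
        · rw [if_neg h1]
      · intro h
        exact absurd (Finset.mem_univ _) h
    have e0 := key (fun q => q.1) s (fun q _ => Iff.rfl) Iff.rfl
    have e1 := key (fun q => (q.1.1, q.1.2 + q.2)) (s.1, s.2 + 1) (by
      intro q hq
      rw [hq]
      constructor
      · rintro rfl
        show q.1 = (q.1.1, q.1.2 + 1 + 1)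
        rw [add_assoc, add_self_V, add_zero]
      · intro h
        rw [h]
        show (s.1, s.2 + 1 + 1) = s
        rw [add_assoc, add_self_V, add_zero]) (by
      unfold sq
      rw [add_one_or])
    have e2 := key (fun q => (q.1.1 + q.2, q.1.2)) (s.1 + 1, s.2) (by
      intro q hq
      rw [hq]
      constructor
      · rintro rfl
        show q.1 = (q.1.1 + 1 + 1, q.1.2)
        rw [add_assoc, add_self_V, add_zero]
      · intro h
        rw [h]
        show (s.1 + 1 + 1, s.2) = s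
        rw [add_assoc, add_self_V, add_zero]) (by
      unfold sq
      rw [add_one_or])
    exact ⟨e1.trans e0.symm, e2.trans e0.symm⟩

lemma M_upper (d : ℕ) (hd : 1 ≤ d) : 4 * M d ≤ 3 * 4 ^ d := by
  classical
  obtain ⟨S, hS, hc⟩ := exists_M d
  have h1 : ∀ g : V d × V d, (univ.filter fun p : V d × V d => p + g ∉ S).card ≤ (Sᶜ).card := by
    intro g
    apply Finset.card_le_card_of_injOn (fun p => p + g)
    · intro p hp
      rw [Finset.mem_coe, Finset.mem_compl]
      exact (Finset.mem_filter.1 hp).2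
    · intro p _ q _ h
      exact add_right_cancel h
  have h2 : (univ : Finset (V d × V d)) ⊆ ((univ.filter fun p : V d × V d => p + (0, 0) ∉ S) ∪
      (univ.filter fun p : V d × V d => p + (1, 0) ∉ S)) ∪
      ((univ.filter fun p : V d × V d => p + (0, 1) ∉ S) ∪
      (univ.filter fun p : V d × V d => p + (1, 1) ∉ S)) := by
    intro z _
    by_contra hcon
    simp only [Finset.mem_union, Finset.mem_filter, Finset.mem_univ, true_and, not_or,
      not_not] at hcon
    obtain ⟨⟨a1, a2⟩, a3, a4⟩ := hcon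
    apply hS
    apply balanced_of_square hd S z
    rintro ⟨p1, p2⟩ ⟨b1, b2⟩
    rcases b1 with b1 | b1 <;> rcases b2 with b2 | b2 <;> simp only at b1 b2 <;> subst b1 b2
    · have : z + (0, 0) = (z.1, z.2) := by
        rw [Prod.mk_zero_zero, add_zero]
      rwa [this] at a1
    · have : z + (0, 1) = (z.1, z.2 + 1) := by
        show (z.1 + 0, z.2 + 1) = _
        rw [add_zero]
      rwa [this] at a3
    · have : z + (1, 0) = (z.1 + 1, z.2) := by
        show (z.1 + 1, z.2 + 0) = _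
        rw [add_zero]
      rwa [this] at a2
    · exact a4
  have h3 := Finset.card_le_card h2
  rw [Finset.card_univ, card_VV] at h3
  have h4 := Finset.card_union_le ((univ.filter fun p : V d × V d => p + (0, 0) ∉ S) ∪
      (univ.filter fun p : V d × V d => p + (1, 0) ∉ S))
      ((univ.filter fun p : V d × V d => p + (0, 1) ∉ S) ∪
      (univ.filter fun p : V d × V d => p + (1, 1) ∉ S))
  have h5 := Finset.card_union_le (univ.filter fun p : V d × V d => p + (0, 0) ∉ S)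
      (univ.filter fun p : V d × V d => p + (1, 0) ∉ S)
  have h6 := Finset.card_union_le (univ.filter fun p : V d × V d => p + (0, 1) ∉ S)
      (univ.filter fun p : V d × V d => p + (1, 1) ∉ S)
  have h7 := Finset.card_compl_add_card S
  rw [card_VV, hc] at h7
  have g1 := h1 (0, 0)
  have g2 := h1 (1, 0)
  have g3 := h1 (0, 1)
  have g4 := h1 (1, 1)
  omega

/-- the number of coordinates in which both entries are zero -/
def zc {d : ℕ} (p : V d × V d) : ℕ := (univ.filter fun i => p.1 i = 0 ∧ p.2 i = 0).card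

/-- the three allowed letters -/
def L : Finset (ZMod 2 × ZMod 2) := {(0, 0), (0, 1), (1, 0)}

lemma zmod2 (a : ZMod 2) : a = 0 ∨ a = 1 := by
  revert a
  decide

lemma L_corner (a b c : ZMod 2) (h0 : (a, b) ∈ L) (h1 : (a, b + c) ∈ L) (h2 : (a + c, b) ∈ L)
    (hc : c ≠ 0) : a = 0 ∧ b = 0 ∧ b + c ≠ 0 ∧ a + c ≠ 0 := by
  have e11 : ((1 : ZMod 2), (1 : ZMod 2)) ∉ L := by decide
  have e2 : (1 : ZMod 2) + 1 = 0 := by decide
  rcases zmod2 c with rfl | rfl
  · exact absurd rfl hc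
  rcases zmod2 a with rfl | rfl <;> rcases zmod2 b with rfl | rfl
  · exact ⟨rfl, rfl, by decide, by decide⟩
  · rw [zero_add] at h2
    exact absurd h2 e11
  · rw [zero_add] at h1
    exact absurd h1 e11
  · exact absurd h0 e11

lemma zc_lt {d : ℕ} (x y z : V d) (hz : z ≠ 0) (h0 : ∀ i, (x i, y i) ∈ L)
    (h1 : ∀ i, (x i, (y + z) i) ∈ L) (h2 : ∀ i, ((x + z) i, y i) ∈ L) :
    zc (x, y + z) < zc (x, y) := by
  apply Finset.card_lt_card
  rw [Finset.ssubset_iff_of_subset]
  · obtain ⟨i, hi⟩ : ∃ i, z i ≠ 0 := by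
      by_contra h
      push Not at h
      exact hz (funext h)
    obtain ⟨a1, a2, a3, _⟩ := L_corner (x i) (y i) (z i) (h0 i) (h1 i) (h2 i) hi
    refine ⟨i, ?_, ?_⟩
    · rw [Finset.mem_filter]
      exact ⟨mem_univ _, a1, a2⟩
    · rw [Finset.mem_filter]
      rintro ⟨_, _, h⟩
      exact a3 h
  · intro i hi
    rw [Finset.mem_filter] at hi ⊢
    obtain ⟨_, b1, b2⟩ := hi
    refine ⟨mem_univ _, b1, ?_⟩
    by_cases hzi : z i = 0
    · have b3 : y i + z i = 0 := b2
      rw [hzi, add_zero] at b3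
      exact b3
    · exact (L_corner (x i) (y i) (z i) (h0 i) (h1 i) (h2 i) hzi).2.1

lemma M_lower (d : ℕ) : 3 ^ d ≤ M d := by
  classical
  set S : Finset (V d × V d) := (Fintype.piFinset (fun _ : Fin d => L)).map
    ({ toFun := fun u => (fun i => (u i).1, fun i => (u i).2)
       inj' := fun u u' h => by
        funext i
        rw [Prod.mk.injEq] at h
        exact Prod.ext (congrFun h.1 i) (congrFun h.2 i) } :
      (Fin d → ZMod 2 × ZMod 2) ↪ V d × V d) with hS
  have hmem : ∀ p : V d × V d, p ∈ S → ∀ i, (p.1 i, p.2 i) ∈ L := by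
    intro p hp i
    rw [hS, Finset.mem_map] at hp
    obtain ⟨u, hu, rfl⟩ := hp
    exact Fintype.mem_piFinset.1 hu i
  have hcard : S.card = 3 ^ d := by
    rw [hS, Finset.card_map, Fintype.card_piFinset]
    have : L.card = 3 := rfl
    simp [this]
  rw [← hcard]
  apply le_M
  rintro ⟨w, ⟨q₀, hq₀⟩, h, hbal⟩
  have key : ∀ f : (V d × V d) × V d → V d × V d,
      (∀ s, (∑ q, if f q = s then w q else 0) = ∑ q, if q.1 = s then w q else 0) →
      ∑ q, w q * zc (f q) = ∑ q, w q * zc q.1 := by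
    intro f hf
    have e : ∀ g : (V d × V d) × V d → V d × V d,
        ∑ q, w q * zc (g q) = ∑ s, (∑ q, if g q = s then w q else 0) * zc s := by
      intro g
      simp_rw [Finset.sum_mul]
      rw [Finset.sum_comm]
      apply Finset.sum_congr rfl
      intro q _
      rw [Finset.sum_eq_single (g q)]
      · rw [if_pos rfl]
      · intro s _ hs
        rw [if_neg (fun h => hs h.symm), zero_mul]
      · intro h
        exact absurd (mem_univ _) h
    rw [e f, e (fun q => q.1)]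
    exact Finset.sum_congr rfl (fun s _ => by rw [hf s])
  have h1 := key (fun q => (q.1.1, q.1.2 + q.2)) (fun s => (hbal s).1)
  have hlt : ∀ q, w q ≠ 0 → zc (q.1.1, q.1.2 + q.2) < zc q.1 := by
    intro q hq
    obtain ⟨a0, a1, a2, a3⟩ := h q hq
    exact zc_lt q.1.1 q.1.2 q.2 a0 (hmem _ a1) (hmem _ a2) (hmem _ a3)
  have h2 : ∑ q, w q * zc (q.1.1, q.1.2 + q.2) < ∑ q, w q * zc q.1 := by
    apply Finset.sum_lt_sum
    · intro q _
      by_cases hq : w q = 0
      · rw [hq, zero_mul, zero_mul]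
      · exact Nat.mul_le_mul_left _ (hlt q hq).le
    · exact ⟨q₀, mem_univ _, Nat.mul_lt_mul_of_pos_left (hlt q₀ hq₀) (Nat.pos_of_ne_zero hq₀)⟩
  exact h2.ne h1

/-! ### The equivalence -/

/-- blocks of length `d`, flattened -/
def flat (d n : ℕ) (x : Fin n → Fin d → ZMod 2) : Fin (n * d) → ZMod 2 :=
  fun c => x (finProdFinEquiv.symm c).1 (finProdFinEquiv.symm c).2

lemma flat_bij (d n : ℕ) : Function.Bijective (flat d n) := by
  constructor
  · intro x x' h
    funext i j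
    have h1 := congrFun h (finProdFinEquiv (i, j))
    simpa [flat] using h1
  · intro z
    refine ⟨fun i j => z (finProdFinEquiv (i, j)), ?_⟩
    funext c
    show z (finProdFinEquiv (finProdFinEquiv.symm c)) = z c
    rw [Equiv.apply_symm_apply]

lemma flat_add (d n : ℕ) (x y : Fin n → Fin d → ZMod 2) :
    flat d n (x + y) = flat d n x + flat d n y := rfl

lemma card_le_r {n : ℕ} {A : Finset ((Fin n → ZMod 2) × (Fin n → ZMod 2))}
    (hA : CornerFree n A) : A.card ≤ r n := by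
  unfold r
  apply le_csSup
  · refine ⟨Fintype.card ((Fin n → ZMod 2) × (Fin n → ZMod 2)), ?_⟩
    rintro m ⟨B, _, rfl⟩
    exact Finset.card_le_univ B
  · exact ⟨A, hA, rfl⟩

lemma exists_r (n : ℕ) : ∃ A : Finset ((Fin n → ZMod 2) × (Fin n → ZMod 2)),
    CornerFree n A ∧ A.card = r n := by
  refine Nat.sSup_mem (s := {m : ℕ | ∃ A : Finset ((Fin n → ZMod 2) × (Fin n → ZMod 2)),
    CornerFree n A ∧ A.card = m}) ⟨0, ∅, by intro x y z h; simp at h, rfl⟩ ?_
  refine ⟨Fintype.card ((Fin n → ZMod 2) × (Fin n → ZMod 2)), ?_⟩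
  rintro m ⟨B, _, rfl⟩
  exact Finset.card_le_univ B

lemma rblk_le_r (d n : ℕ) : rblk d n ≤ r (n * d) := by
  classical
  apply csSup_le'
  rintro t ⟨A, hA, _, rfl⟩
  have hinj : Function.Injective (Prod.map (flat d n) (flat d n)) :=
    (flat_bij d n).1.prodMap (flat_bij d n).1
  rw [← Finset.card_image_of_injective A hinj]
  apply card_le_r
  have hm : ∀ x y, (flat d n x, flat d n y) ∈ A.image (Prod.map (flat d n) (flat d n)) →
      (x, y) ∈ A := by
    intro x y h
    rw [Finset.mem_image] at h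
    obtain ⟨p, hp, hpp⟩ := h
    have : p = (x, y) := hinj hpp
    rwa [← this]
  intro X Y Z h0 h1 h2
  obtain ⟨x, rfl⟩ := (flat_bij d n).2 X
  obtain ⟨y, rfl⟩ := (flat_bij d n).2 Y
  obtain ⟨z, rfl⟩ := (flat_bij d n).2 Z
  rw [← flat_add] at h1 h2
  have h3 := hA x y z (hm _ _ h0) (hm _ _ h1) (hm _ _ h2)
  rw [h3]
  rfl

/-- If `a^N ≤ C (N + 1)^e b^N` for all `N ≥ 1` then `a ≤ b`. -/
lemma le_of_pow_le {a b C : ℝ} {e : ℕ} (hb : 0 ≤ b) (hC : 0 < C)
    (h : ∀ N : ℕ, 1 ≤ N → a ^ N ≤ ((N : ℝ) + 1) ^ e * (C * b ^ N)) : a ≤ b := by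
  by_contra hab
  push Not at hab
  have ha0 : 0 < a := lt_of_le_of_lt hb hab
  have hq0 : 0 ≤ b / a := by positivity
  have hq1 : b / a < 1 := (div_lt_one ha0).2 hab
  have h1 := tendsto_pow_const_mul_const_pow_of_abs_lt_one e
    (show |b / a| < 1 by rwa [abs_of_nonneg hq0])
  have h3 := h1.const_mul ((2 : ℝ) ^ e * C)
  rw [mul_zero] at h3
  have h4 := (h3.eventually (gt_mem_nhds (show (0 : ℝ) < 1 by norm_num))).and
    (Filter.eventually_ge_atTop 1)
  obtain ⟨N, hN, hN1⟩ := h4.exists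
  have h5 := h N hN1
  have h6 : (0 : ℝ) < a ^ N := by positivity
  have h7 : 1 ≤ ((N : ℝ) + 1) ^ e * (C * (b / a) ^ N) := by
    rw [div_pow, mul_div_assoc', mul_div_assoc', le_div_iff₀ h6, one_mul]
    exact h5
  have h8 : ((N : ℝ) + 1) ^ e ≤ 2 ^ e * (N : ℝ) ^ e := by
    rw [← mul_pow]
    have : (1 : ℝ) ≤ N := by exact_mod_cast hN1
    exact pow_le_pow_left₀ (by positivity) (by linarith) e
  have h9 : ((N : ℝ) + 1) ^ e * (C * (b / a) ^ N) ≤ 2 ^ e * C * ((N : ℝ) ^ e * (b / a) ^ N) := by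
    calc ((N : ℝ) + 1) ^ e * (C * (b / a) ^ N) ≤ 2 ^ e * (N : ℝ) ^ e * (C * (b / a) ^ N) :=
          mul_le_mul_of_nonneg_right h8 (by positivity)
      _ = _ := by ring
  linarith

lemma power_iff : PowerSaving ↔
    ∃ c : ℝ, 0 < c ∧ ∀ d : ℕ, 1 ≤ d → (M d : ℝ) ≤ 4 ^ ((1 - c) * (d : ℝ)) := by
  constructor
  · rintro ⟨C, c, hC, hc, h⟩
    refine ⟨c, hc, fun d hd => ?_⟩
    refine le_of_pow_le (e := 4 ^ d) (C := C) (by positivity) hC ?_
    intro N hN
    have h1 : ((M d : ℕ) : ℝ) ^ N ≤ ((N : ℝ) + 1) ^ (4 ^ d) * (r (N * d) : ℝ) := by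
      exact_mod_cast (rblk_lower d N).trans (Nat.mul_le_mul_left _ (rblk_le_r d N))
    obtain ⟨A, hA, hAc⟩ := exists_r (N * d)
    have h2 := h (N * d) (Nat.mul_pos hN hd) A hA
    rw [hAc] at h2
    have h3 : (4 : ℝ) ^ ((1 - c) * ((N * d : ℕ) : ℝ)) = (4 ^ ((1 - c) * (d : ℝ))) ^ N := by
      rw [← Real.rpow_natCast, ← Real.rpow_mul (by norm_num)]
      congr 1
      push_cast
      ring
    rw [h3] at h2
    exact h1.trans (mul_le_mul_of_nonneg_left h2 (by positivity))
  · rintro ⟨c, hc, h⟩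
    refine ⟨1, c, one_pos, hc, fun n hn A hA => ?_⟩
    rw [one_mul]
    have h1 : (A.card : ℝ) ≤ M n := by exact_mod_cast (card_le_r hA).trans (r_le_M n)
    exact h1.trans (h n hn)

/-- Let `M d` be the largest size of a subset of `(F_2^d)^2` without a balanced weight.
(1) For every `d ≥ 1` the largest size `rblk d n` of a corner-free subset of `(F_2^{dn})^2` that is
invariant under the permutations of the `n` blocks of length `d` is `M^n` up to a factor `C n^C`.
(2) For every `d ≥ 1` and `ε > 0` there is a `T` such that `|A| ≤ (M + ε)^m 4^{d(n - m)}` for the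
corner-free sets `A ⊆ (F_2^{dn})^2` which are invariant under the permutations that preserve the
classes of a partition of the `n` blocks, where `m` is the number of the blocks in the classes with
at least `T` elements; and there are `δ > 0` and `n₀` such that `|A| ≤ (M + ε)^n` if `n ≥ n₀` and
`A ⊆ (F_2^{dn})^2` is corner-free and invariant under a group `H` of permutations of the `n` blocks
whose index in the symmetric group is at most `(n!)^δ`.
(3) `3^d ≤ M d ≤ (3/4) 4^d` and `r d ≤ M d` for `d ≥ 1`.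
(4) The power-saving bound of the problem holds if and only if `M d ≤ 4^{(1 - c) d}` for all
`d ≥ 1`, for some `c > 0`. -/
theorem result :
    (∀ d : ℕ, 1 ≤ d → ∃ C : ℕ, ∀ n : ℕ, 1 ≤ n → rblk d n ≤ C * n ^ C * M d ^ n ∧
      M d ^ n ≤ C * n ^ C * rblk d n) ∧
    (∀ d : ℕ, 1 ≤ d → ∀ ε : ℝ, 0 < ε →
      (∃ T : ℕ, ∀ (n : ℕ) (c : Fin n → Fin n)
        (A : Finset ((Fin n → Fin d → ZMod 2) × (Fin n → Fin d → ZMod 2))),
        BlockCornerFree d n A → (∀ σ : Perm (Fin n), (∀ i, c (σ i) = c i) → Inv d n σ A) →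
        ∀ m : ℕ, m = (univ.filter fun i => T ≤ (univ.filter fun j => c j = c i).card).card →
        (A.card : ℝ) ≤ (M d + ε) ^ m * ((4 : ℝ) ^ d) ^ (n - m)) ∧
      ∃ δ : ℝ, 0 < δ ∧ ∃ n₀ : ℕ, ∀ n : ℕ, n₀ ≤ n → ∀ H : Subgroup (Perm (Fin n)),
        (H.index : ℝ) ≤ (n.factorial : ℝ) ^ δ →
        ∀ A : Finset ((Fin n → Fin d → ZMod 2) × (Fin n → Fin d → ZMod 2)),
        BlockCornerFree d n A → (∀ σ ∈ H, Inv d n σ A) → (A.card : ℝ) ≤ (M d + ε) ^ n) ∧
    (∀ d : ℕ, 1 ≤ d → 3 ^ d ≤ M d ∧ 4 * M d ≤ 3 * 4 ^ d ∧ r d ≤ M d) ∧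
    (PowerSaving ↔ ∃ c : ℝ, 0 < c ∧ ∀ d : ℕ, 1 ≤ d → (M d : ℝ) ≤ 4 ^ ((1 - c) * (d : ℝ))) := by
  refine ⟨fun d _ => ?_, fun d _ ε hε => ⟨local_bound d hε, large_bound d hε⟩,
    fun d hd => ⟨M_lower d, M_upper d hd, r_le_M d⟩, power_iff⟩
  obtain ⟨C, hC⟩ := rblk_upper d
  have hL := rblk_lower d
  obtain ⟨E, hE⟩ : ∃ E, E = 4 ^ d := ⟨_, rfl⟩
  obtain ⟨G, hG⟩ : ∃ G, G = 2 ^ E := ⟨_, rfl⟩
  rw [← hE] at hL
  refine ⟨C + E + G, fun n hn => ⟨(hC n hn).trans ?_, (hL n).trans ?_⟩⟩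
  · exact Nat.mul_le_mul_right _ (Nat.mul_le_mul (by omega)
      (Nat.pow_le_pow_right hn (by omega)))
  · apply Nat.mul_le_mul_right
    calc (n + 1) ^ E ≤ (2 * n) ^ E := Nat.pow_le_pow_left (by omega) _
      _ = G * n ^ E := by rw [mul_pow, hG]
      _ ≤ (C + E + G) * n ^ (C + E + G) :=
        Nat.mul_le_mul (by omega) (Nat.pow_le_pow_right hn (by omega))

end Pool.Agent.Results.MP_db4732_co.BlockSymmetricGrowth
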