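import Pool.Agent.TH380.BW.Mach

set_option autoImplicit false

/-!
# Corner-free sets decided by machines with few states

A power-saving bound for all corner-free subsets of `(G^n)^2` (`G` a nontrivial finite abelian
group, e.g. `F_2`) that are decided by nondeterministic machines with a bounded number of states
which read the `2 n` coordinates once, in any order.
-/

open Finset

namespace Pool.Agent.Results.MP_db4732_co.BoundedWidth

/-- `A ⊆ H × H` contains no nontrivial corner `(x, y), (x, y + z), (x + z, y)`, `z ≠ 0`. -/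
def CornerFree {H : Type} [AddCommGroup H] (A : Set (H × H)) : Prop :=
  ∀ x y z : H, (x, y) ∈ A → (x, y + z) ∈ A → (x + z, y) ∈ A → z = 0

/-- A nondeterministic machine with state set `Q` over the alphabet `G`; the transitions may depend
on the time. -/
structure Machine (Q G : Type) where
  /-- initial states -/
  start : Q → Prop
  /-- `step t q g q'`: at time `t`, in the state `q`, after reading `g`, it may enter the state `q'` -/
  step : ℕ → Q → G → Q → Prop
  /-- accepting states -/
  accept : Q → Prop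

/-- The machine reads the `2 n` coordinates of `p = (x, y)` in the given order, each one once
(`inl i` is the coordinate `x i`, `inr i` is the coordinate `y i`), and has an accepting run. -/
def Machine.Accepts {Q G : Type} (M : Machine Q G) {n : ℕ} (order : Fin (2 * n) ≃ Fin n ⊕ Fin n)
    (p : (Fin n → G) × (Fin n → G)) : Prop :=
  ∃ r : ℕ → Q, M.start (r 0) ∧ M.accept (r (2 * n)) ∧
    ∀ t : Fin (2 * n), M.step t (r t) (Sum.elim p.1 p.2 (order t)) (r (t + 1))

/-- `B` is decided by a machine with at most `w` states that reads the `2 n` coordinates once, in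
some order. -/
def Decided (w : ℕ) {G : Type} {n : ℕ} (B : Set ((Fin n → G) × (Fin n → G))) : Prop :=
  ∃ (Q : Type) (_ : Fintype Q) (M : Machine Q G) (order : Fin (2 * n) ≃ Fin n ⊕ Fin n),
    Fintype.card Q ≤ w ∧ ∀ p, p ∈ B ↔ M.Accepts order p

/-- `P` is a product set with respect to the partition of the `2 n` coordinates into the classes
`{v | cls v = j}`: it is given by conditions each of which concerns the coordinates of one class. -/
def IsProduct {G κ : Type} {n : ℕ} (cls : Fin n ⊕ Fin n → κ)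
    (P : Set ((Fin n → G) × (Fin n → G))) : Prop :=
  ∃ B : κ → Set (Fin n ⊕ Fin n → G),
    (∀ j f g, (∀ v, cls v = j → f v = g v) → f ∈ B j → g ∈ B j) ∧
    ∀ p, p ∈ P ↔ ∀ j, Sum.elim p.1 p.2 ∈ B j

theorem box_of_isProduct {G κ : Type} {n : ℕ} {cls : Fin n ⊕ Fin n → κ}
    {P : Set ((Fin n → G) × (Fin n → G))} [AddCommGroup G] (h : IsProduct cls P) :
    TH380.BW.Box (fun i => cls (Sum.inl i)) (fun i => cls (Sum.inr i)) P := by
  classical
  obtain ⟨B, hB, hP⟩ := h
  intro p hp q hq Λ
  rw [hP] at hp hq ⊢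
  have hl : ∀ v : Fin n ⊕ Fin n, Sum.elim
      (TH380.BW.mix (fun i => cls (Sum.inl i)) (fun i => cls (Sum.inr i)) Λ p q).1
      (TH380.BW.mix (fun i => cls (Sum.inl i)) (fun i => cls (Sum.inr i)) Λ p q).2 v =
      if cls v ∈ Λ then Sum.elim p.1 p.2 v else Sum.elim q.1 q.2 v := by
    rintro (i | i) <;> simp [TH380.BW.mix]
  intro j
  by_cases hj : j ∈ Λ
  · exact hB j _ _ (fun v hv => by rw [hl, hv, if_pos hj]) (hp j)
  · exact hB j _ _ (fun v hv => by rw [hl, hv, if_neg hj]) (hq j)

/-- (1) Power saving: for every nontrivial finite abelian group `G` and every `w` there are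
`c, C > 0` such that a corner-free `A ⊆ (G^n)^2` which is a union of `T` sets, each decided by a
nondeterministic machine with at most `w` states that reads the `2 n` coordinates once, in some
order, has at most `C T (|G|^{2n})^{1-c}` elements (`C T 4^{(1-c)n}` for `G = F_2`).
(2), (3) Let the `2 n` coordinates be partitioned into classes and let the corner-free set `A` be a
union of `T` product sets. If for at least `N` indices `i` the coordinates `x i` and `y i` are in
different classes then `|A| |G|^k ≤ T |G|^{2n}` for some `k ≥ N / 4`. If `J` classes contain both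
`x i` and `y i` for at least `m = m(G, δ)` indices `i` then `|A| ≤ T δ^J |G|^{2n}`. -/
theorem result :
    (∀ (G : Type) [AddCommGroup G] [Fintype G] [Nontrivial G] (w : ℕ),
      ∃ c : ℝ, 0 < c ∧ ∃ C : ℝ, 0 < C ∧ ∀ (n T : ℕ) (A : Finset ((Fin n → G) × (Fin n → G)))
        (B : Fin T → Set ((Fin n → G) × (Fin n → G))),
        CornerFree (A : Set ((Fin n → G) × (Fin n → G))) → (∀ p, p ∈ A ↔ ∃ s, p ∈ B s) →
        (∀ s, Decided w (B s)) →
        (#A : ℝ) ≤ C * T * ((Fintype.card G : ℝ) ^ (2 * n)) ^ (1 - c)) ∧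
    (∀ (G κ : Type) [AddCommGroup G] [Fintype G] [Finite κ] (n T : ℕ) (cls : Fin n ⊕ Fin n → κ)
      (A : Finset ((Fin n → G) × (Fin n → G))) (P : Fin T → Set ((Fin n → G) × (Fin n → G))),
      CornerFree (A : Set ((Fin n → G) × (Fin n → G))) → (∀ p, p ∈ A ↔ ∃ s, p ∈ P s) →
      (∀ s, IsProduct cls (P s)) →
      ∃ k, {i | cls (Sum.inl i) ≠ cls (Sum.inr i)}.ncard ≤ 4 * k ∧
        #A * Fintype.card G ^ k ≤ T * Fintype.card G ^ (2 * n)) ∧
    (∀ (G : Type) [AddCommGroup G] [Fintype G] [Nontrivial G] (δ : ℝ), 0 < δ →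
      ∃ m : ℕ, ∀ (κ : Type) [Finite κ] (n T : ℕ) (cls : Fin n ⊕ Fin n → κ)
        (A : Finset ((Fin n → G) × (Fin n → G))) (P : Fin T → Set ((Fin n → G) × (Fin n → G))),
        CornerFree (A : Set ((Fin n → G) × (Fin n → G))) → (∀ p, p ∈ A ↔ ∃ s, p ∈ P s) →
        (∀ s, IsProduct cls (P s)) →
        (#A : ℝ) ≤ T * δ ^ {j | m ≤ {i | cls (Sum.inl i) = j ∧ cls (Sum.inr i) = j}.ncard}.ncard *
          (Fintype.card G : ℝ) ^ (2 * n)) := by
  classical
  refine ⟨?_, ?_, ?_⟩
  · intro G _ _ _ w
    obtain ⟨c, hc, C, hC, h⟩ := TH380.BW.main G w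
    refine ⟨c, hc, C, hC, fun n T A B hA hB hD => ?_⟩
    have hsub : A ⊆ univ.biUnion fun s => (B s).toFinset := by
      intro p hp
      obtain ⟨s, hs⟩ := (hB p).1 hp
      exact mem_biUnion.2 ⟨s, mem_univ _, Set.mem_toFinset.2 hs⟩
    have h1 : #A ≤ ∑ s, #(B s).toFinset := (card_le_card hsub).trans card_biUnion_le
    have h2 : ∀ s, (#(B s).toFinset : ℝ) ≤ C * ((Fintype.card G : ℝ) ^ (2 * n)) ^ (1 - c) := by
      intro s
      obtain ⟨Q, hQ, M, order, hw, hM⟩ := hD s
      refine h Q hw n ⟨M.start, M.step, M.accept⟩ order (B s).toFinset ?_ ?_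
      · rw [Set.coe_toFinset]
        intro x y z m1 m2 m3
        exact hA x y z ((hB _).2 ⟨s, m1⟩) ((hB _).2 ⟨s, m2⟩) ((hB _).2 ⟨s, m3⟩)
      · intro p
        rw [Set.mem_toFinset]
        exact hM p
    calc (#A : ℝ) ≤ ((∑ s, #(B s).toFinset : ℕ) : ℝ) := by exact_mod_cast h1
      _ = ∑ s, (#(B s).toFinset : ℝ) := by push_cast; rfl
      _ ≤ ∑ _s : Fin T, C * ((Fintype.card G : ℝ) ^ (2 * n)) ^ (1 - c) :=
          sum_le_sum fun s _ => h2 s
      _ = _ := by simp; ring
  · intro G κ _ _ _ n T cls A P hA hP hprod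
    have := Fintype.ofFinite κ
    obtain ⟨k, h1, h2⟩ := TH380.BW.cover_A (fun i => cls (Sum.inl i)) (fun i => cls (Sum.inr i)) A
      hA P (fun s => box_of_isProduct (hprod s)) hP
    refine ⟨k, ?_, by simpa using h2⟩
    rw [Set.ncard_eq_toFinset_card']
    convert h1 using 2
    ext i
    simp
  · intro G _ _ _ δ hδ
    refine ⟨TH380.BW.small_m G δ, fun κ _ n T cls A P hA hP hprod => ?_⟩
    have := Fintype.ofFinite κ
    have h1 := TH380.BW.cover_B (fun i => cls (Sum.inl i)) (fun i => cls (Sum.inr i)) A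
      hA P (fun s => box_of_isProduct (hprod s)) hP δ hδ
      {j | TH380.BW.small_m G δ ≤ {i | cls (Sum.inl i) = j ∧ cls (Sum.inr i) = j}.ncard}
      (fun j hj => by
        refine (TH380.BW.small_m_spec G δ).trans (Nat.pow_le_pow_right Fintype.card_pos ?_)
        refine (mem_filter.1 hj).2.trans ?_
        rw [Set.ncard_eq_toFinset_card']
        refine le_of_eq (congrArg card ?_)
        ext i
        simp)
    rw [Set.ncard_eq_toFinset_card' {j | _ ≤ _}, mul_assoc]
    convert h1 using 5
    · simp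
    · ext j
      simp
    · simp

end Pool.Agent.Results.MP_db4732_co.BoundedWidth
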