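import Pool.Agent.TH513.Cor.Fam

/-!
# Corner-free sets in `(F_2^n)^2` decided by labels, comparisons and small three-party rank
-/

set_option autoImplicit false

namespace Pool.Agent.Results.MP_db4732_co.ComparisonTrees

open Finset

/-- `F_2^n` -/
abbrev V (n : ℕ) := Fin n → ZMod 2

/-- `A ⊆ (F_2^n)^2` contains no nontrivial corner `(x, y), (x, y + z), (x + z, y)`, `z ≠ 0`. -/
def CornerFree {n : ℕ} (A : Finset (V n × V n)) : Prop :=
  ∀ x y z : V n, z ≠ 0 → ¬ ((x, y) ∈ A ∧ (x, y + z) ∈ A ∧ (x + z, y) ∈ A)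

/-- `f (x, y) = ∑ i, R_i (x, y) w_i (x + y)` with `S` arbitrary functions `w_i` of `x + y` and `S`
matrices `R_i` over `K` of rank at most `r`. -/
def Decomposes {n : ℕ} {K : Type} [Field K] (S r : ℕ) (f : V n → V n → K) : Prop :=
  ∃ (u v : Fin S → Fin r → V n → K) (w : Fin S → V n → K),
    ∀ x y, f x y = ∑ i, (∑ j, u i j x * v i j y) * w i (x + y)

/-- `E x y` says that arbitrary labels of `x`, `y` and `x + y` match in pairs. -/
def IsMatching {n : ℕ} (E : V n → V n → Prop) : Prop :=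
  ∃ a a' b b' c c' : V n → ℕ, ∀ x y, E x y ↔ a x = a' y ∧ b x = b' (x + y) ∧ c y = c' (x + y)

/-- `C x y` compares a number depending on `x`, on `y` or on `x + y` with another such number,
`f x ≤ g y`, `f x ≤ g (x + y)` or `f y ≤ g (x + y)`; `f` and `g` are arbitrary functions. -/
def IsComparison {n : ℕ} (C : V n → V n → Prop) : Prop :=
  ∃ f g : V n → ℝ, (∀ x y, C x y ↔ f x ≤ g y) ∨ (∀ x y, C x y ↔ f x ≤ g (x + y)) ∨
    (∀ x y, C x y ↔ f y ≤ g (x + y))

/-- decision trees whose queries are relations `C x y` -/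
inductive Tree (n : ℕ) : Type
  | leaf (b : Bool) : Tree n
  | node (C : V n → V n → Prop) (yes no : Tree n) : Tree n

/-- the largest number of queries on a branch -/
def Tree.depth {n : ℕ} : Tree n → ℕ
  | .leaf _ => 0
  | .node _ s t => max s.depth t.depth + 1

/-- all queries are comparisons -/
def Tree.Comparisons {n : ℕ} : Tree n → Prop
  | .leaf _ => True
  | .node C s t => IsComparison C ∧ s.Comparisons ∧ t.Comparisons

/-- the tree accepts `(x, y)` -/
def Tree.Accepts {n : ℕ} : Tree n → V n → V n → Prop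
  | .leaf b, _, _ => b = true
  | .node C s t, x, y => (C x y ∧ s.Accepts x y) ∨ (¬ C x y ∧ t.Accepts x y)

open Pool.Agent.TH513.Cor in
/-- the same tree for the library -/
def Tree.conv {n : ℕ} : Tree n → Pool.Agent.TH513.Cor.Tree n
  | .leaf b => .leaf b
  | .node C s t => .node C s.conv t.conv

lemma conv_depth {n : ℕ} (T : Tree n) : T.conv.depth = T.depth := by
  induction T with
  | leaf b => rfl
  | node C s t ihs iht =>
    simp only [Tree.conv, Pool.Agent.TH513.Cor.Tree.depth, Tree.depth, ihs, iht]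

lemma conv_comparisons {n : ℕ} (T : Tree n) (h : T.Comparisons) : T.conv.Comparisons := by
  induction T with
  | leaf b => trivial
  | node C s t ihs iht => exact ⟨h.1, ihs h.2.1, iht h.2.2⟩

lemma conv_accepts {n : ℕ} (T : Tree n) (x y : V n) : T.conv.Accepts x y ↔ T.Accepts x y := by
  induction T with
  | leaf b => exact Iff.rfl
  | node C s t ihs iht =>
    simp only [Tree.conv, Pool.Agent.TH513.Cor.Tree.Accepts, Tree.Accepts, ihs, iht]

lemma union_bound {n N : ℕ} {A : Finset (V n × V n)} (B : Fin N → Finset (V n × V n))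
    (hsub : A ⊆ univ.biUnion B) (c : ℝ) (hc : ∀ i, ((B i).card : ℝ) ≤ c) :
    (A.card : ℝ) ≤ N * c := by
  have h1 : A.card ≤ ∑ i, (B i).card := (Finset.card_le_card hsub).trans Finset.card_biUnion_le
  have h2 : (A.card : ℝ) ≤ ∑ i, ((B i).card : ℝ) := by exact_mod_cast h1
  refine h2.trans ((Finset.sum_le_sum fun i _ => hc i).trans ?_)
  rw [Finset.sum_const, Finset.card_univ, Fintype.card_fin, nsmul_eq_mul]

/-- Let `A ⊆ (F_2^n)^2` be corner-free and the union of `N` sets of the following form: the points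
`(x, y)` at which `f_i (x, y) ≠ 0`, where `f_i` has values in a field of characteristic 2 and is a
sum of `S` products of a matrix of rank at most `r` and a function of `x + y`; at which certain
arbitrary labels of `x`, `y` and `x + y` match; and which are accepted by a decision tree of depth
at most `k` whose queries are arbitrary comparisons. Then
`|A| ≤ N (2 n + 2)^k (S (2 r + 1))^{1/4} 4^{(1 - 0.01) n}`.
If the labels and the trees pose no condition, then `|A| ≤ N S (2 r + 1) 54^{n / 3}`. -/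
theorem result (n N k S r : ℕ) (K : Type) [Field K] [CharP K 2] (A : Finset (V n × V n))
    (hA : CornerFree A) (f : Fin N → V n → V n → K) (hf : ∀ i, Decomposes S r (f i))
    (E : Fin N → V n → V n → Prop) (hE : ∀ i, IsMatching (E i))
    (T : Fin N → Tree n) (hT : ∀ i, (T i).Comparisons) (hk : ∀ i, (T i).depth ≤ k)
    (hfA : ∀ x y, (x, y) ∈ A ↔ ∃ i, f i x y ≠ 0 ∧ E i x y ∧ (T i).Accepts x y) :
    (A.card : ℝ) ≤ N * (2 * n + 2) ^ k * (S * (2 * r + 1) : ℝ) ^ ((1 : ℝ) / 4) *
        (4 : ℝ) ^ ((1 - 0.01 : ℝ) * n) ∧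
      ((∀ i x y, E i x y ∧ (T i).Accepts x y) →
        (A.card : ℝ) ≤ N * S * (2 * r + 1) * (54 : ℝ) ^ ((n : ℝ) / 3)) := by
  classical
  let B : Fin N → Finset (V n × V n) := fun i =>
    univ.filter fun p => f i p.1 p.2 ≠ 0 ∧ E i p.1 p.2 ∧ (T i).Accepts p.1 p.2
  have hBA : ∀ i, B i ⊆ A := by
    intro i p hp
    exact (hfA p.1 p.2).2 ⟨i, (mem_filter.1 hp).2⟩
  have hsub : A ⊆ univ.biUnion B := by
    intro p hp
    obtain ⟨i, hi⟩ := (hfA p.1 p.2).1 hp
    exact mem_biUnion.2 ⟨i, mem_univ _, mem_filter.2 ⟨mem_univ _, hi⟩⟩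
  constructor
  · set D : ℝ := S * (2 * r + 1) with hD
    have hD0 : 0 ≤ D := by positivity
    set m : ℝ := (D * (54 : ℝ) ^ ((n : ℝ) / 3)) ^ ((1 : ℝ) / 4) with hm
    have hm0 : 0 ≤ m := by positivity
    have hm4 : (S : ℝ) * (2 * r + 1) * (54 : ℝ) ^ ((n : ℝ) / 3) ≤ m ^ 4 := by
      have e : m ^ 4 = D * (54 : ℝ) ^ ((n : ℝ) / 3) := by
        rw [hm, ← Real.rpow_natCast, ← Real.rpow_mul (by positivity)]
        norm_num
      rw [e, hD]
    have hn1 : (1 : ℝ) ≤ 2 * (n + 1) := by
      have : (0 : ℝ) ≤ n := Nat.cast_nonneg n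
      linarith
    have h1 : ∀ i, ((B i).card : ℝ) ≤ (2 * (n + 1)) ^ k * (m * Real.sqrt (8 ^ n)) := by
      intro i
      obtain ⟨u, v, w, h⟩ := hf i
      refine (Pool.Agent.TH513.Cor.family (A := A) hA u v w m hm0 hm4 (T i).conv
        (conv_comparisons _ (hT i)) (E i) (hE i) (B i) (hBA i) (fun x y => ?_)).trans ?_
      · rw [conv_accepts, ← h]
        simp only [B, mem_filter, mem_univ, true_and]
      · rw [conv_depth]
        exact mul_le_mul_of_nonneg_right (pow_le_pow_right₀ hn1 (hk i)) (by positivity)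
    refine (union_bound B hsub _ h1).trans ?_
    have h2 := Pool.Agent.TH513.Cor.const n D hD0
    rw [← hm] at h2
    calc (N : ℝ) * ((2 * (n + 1)) ^ k * (m * Real.sqrt (8 ^ n)))
        ≤ N * ((2 * (n + 1)) ^ k * (D ^ ((1 : ℝ) / 4) * (4 : ℝ) ^ ((1 - 0.01 : ℝ) * n))) := by
          apply mul_le_mul_of_nonneg_left _ (Nat.cast_nonneg N)
          exact mul_le_mul_of_nonneg_left h2 (by positivity)
      _ = N * (2 * n + 2) ^ k * D ^ ((1 : ℝ) / 4) * (4 : ℝ) ^ ((1 - 0.01 : ℝ) * n) := by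
          rw [show (2 : ℝ) * (n + 1) = 2 * n + 2 by ring]
          ring
  · intro hall
    have h1 : ∀ i, ((B i).card : ℝ) ≤ S * (2 * r + 1) * (54 : ℝ) ^ ((n : ℝ) / 3) := by
      intro i
      obtain ⟨u, v, w, h⟩ := hf i
      have hBc : Pool.Agent.TH835.Cor.CornerFree (B i) := by
        rintro x y z hz ⟨h1, h2, h3⟩
        exact hA x y z hz ⟨hBA i h1, hBA i h2, hBA i h3⟩
      refine Pool.Agent.TH513.Cor.one_cell (B i) hBc u v w (fun x y => ?_)
      rw [← h]
      simp only [B, mem_filter, mem_univ, true_and]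
      exact ⟨fun hp => hp.1, fun hp => ⟨hp, hall i x y⟩⟩
    refine (union_bound B hsub _ h1).trans (le_of_eq ?_)
    ring

end Pool.Agent.Results.MP_db4732_co.ComparisonTrees
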