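import Pool.Agent.TH360.RS.Dense

/-!
Corner-free sets and groups of exponent `p` acting on `G × G` by affine maps.

The proof applies the slice rank method over `F_p` on the acting group: the characteristic of the
field comes from the symmetry, not from `G`. The diagonal tensor on a system of representatives of
the orbits is written through the indicator functions of cosets of sums of three stabilizers, which
are polynomials of low degree on the acting group.
-/

set_option autoImplicit false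

namespace Pool.Agent.Results.MP_db4732_co.ElementaryAbelianSymmetry

open Finset

/-- `A` contains no nontrivial corner `(x, y), (x, y + z), (x + z, y)` -/
def CornerFree {G : Type} [AddCommGroup G] (A : Finset (G × G)) : Prop :=
  ∀ x y z : G, (x, y) ∈ A → (x, y + z) ∈ A → (x + z, y) ∈ A → z = 0

/-- every element of `Γ` acts on `G × G` by a map `(x, y) ↦ (σ x + a, σ y + b)`, where `σ` is an
automorphism of `G` and `a, b ∈ G` -/
def ActsAffinely (Γ G : Type) [Group Γ] [AddCommGroup G] [MulAction Γ (G × G)] : Prop :=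
  ∀ γ : Γ, ∃ (σ : G ≃+ G) (a b : G), ∀ x y : G, γ • (x, y) = (σ x + a, σ y + b)

/-- `∑_P |Γ P| ^ (- 1 / (18 log p))`, the sum over all `P ∈ G × G`; the summand is
`exp (- r / 18)` if the orbit `Γ P` has `p ^ r` elements -/
noncomputable def orbitSum (p : ℕ) (Γ G : Type) [Group Γ] [Fintype G] [MulAction Γ (G × G)] : ℝ :=
  ∑ P : G × G, (Nat.card (MulAction.orbit Γ P) : ℝ) ^ (-(1 / (18 * Real.log p)) : ℝ)

/-- `σ` applied to the `i`-th coordinate of an element of `(V₁ × ⋯ × V_t) × W` -/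
def onBlock {t : ℕ} {V : Fin t → Type} {W : Type} (i : Fin t) (σ : V i → V i)
    (x : (∀ i, V i) × W) : (∀ i, V i) × W :=
  (Function.update x.1 i (σ (x.1 i)), x.2)

/-- Let `p` be a prime (in (4), any prime; `c` does not depend on it).
(1) Let a finite commutative group `Γ` of exponent `p` act on `G × G` by maps
`(x, y) ↦ (σ x + a, σ y + b)`. For every corner-free `A ⊆ G × G`, at most
`3 ∑_P |Γ P| ^ (- 1 / (18 log p))` points `P` have `|A ∩ Γ P| > (2 / 3) |Γ P|`.
(2) In particular `|A| ≤ 3 ∑_P |Γ P| ^ (- 1 / (18 log p))` if `A` is also invariant under `Γ`; this is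
`3 |G| ^ 2 exp (- r / 18)` if `|Γ| = p ^ r` and only the identity has fixed points.
(3) Let `G = V₁ × ⋯ × V_t × W`, let `σ_i` be an automorphism of `V_i` of order `p`, and let `A` be
corner-free and invariant under every `σ_i`, applied to both coordinates of the points of `A`. Then
`|A| ≤ 3 (24 / 25) ^ t |G| ^ 2`.
(4) So for every `ε > 0` there is `c > 0` such that `|A| ≤ 3 * 4 ^ ((1 - c) n)` whenever `A` is as in
(3), `|G| = 2 ^ n` and `t ≥ ε n`. -/
theorem result :
    (∀ (p : ℕ) (Γ G : Type) [CommGroup Γ] [Finite Γ] [AddCommGroup G] [Fintype G] [MulAction Γ (G × G)]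
      (A : Finset (G × G)), p.Prime → (∀ γ : Γ, γ ^ p = 1) → ActsAffinely Γ G → CornerFree A →
      (Nat.card {P : G × G // 2 * Nat.card (MulAction.orbit Γ P) <
        3 * Nat.card {Q : G × G // Q ∈ A ∧ Q ∈ MulAction.orbit Γ P}} : ℝ) ≤
          3 * orbitSum p Γ G) ∧
    (∀ (p : ℕ) (Γ G : Type) [CommGroup Γ] [Finite Γ] [AddCommGroup G] [Fintype G] [MulAction Γ (G × G)]
      (A : Finset (G × G)), p.Prime → (∀ γ : Γ, γ ^ p = 1) → ActsAffinely Γ G → CornerFree A →
      (∀ γ : Γ, ∀ P ∈ A, γ • P ∈ A) → (A.card : ℝ) ≤ 3 * orbitSum p Γ G ∧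
      ((∀ γ : Γ, γ ≠ 1 → ∀ P : G × G, γ • P ≠ P) → ∀ r : ℕ, Nat.card Γ = p ^ r →
        (A.card : ℝ) ≤ 3 * (Fintype.card G : ℝ) ^ 2 * Real.exp (-(r : ℝ) / 18))) ∧
    (∀ (p t : ℕ) (V : Fin t → Type) (W : Type) [∀ i, AddCommGroup (V i)] [∀ i, Fintype (V i)]
      [AddCommGroup W] [Fintype W] (σ : ∀ i, V i ≃+ V i)
      (A : Finset (((∀ i, V i) × W) × ((∀ i, V i) × W))), p.Prime →
      (∀ i, ∃ v, σ i v ≠ v) → (∀ i v, (σ i)^[p] v = v) → CornerFree A →
      (∀ i, ∀ P ∈ A, (onBlock i (σ i) P.1, onBlock i (σ i) P.2) ∈ A) →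
      (A.card : ℝ) ≤ 3 * (24 / 25) ^ t * (Fintype.card ((∀ i, V i) × W) : ℝ) ^ 2) ∧
    (∀ ε : ℝ, 0 < ε → ∃ c : ℝ, 0 < c ∧ ∀ (p n t : ℕ) (V : Fin t → Type) (W : Type)
      [∀ i, AddCommGroup (V i)] [∀ i, Fintype (V i)] [AddCommGroup W] [Fintype W]
      (σ : ∀ i, V i ≃+ V i) (A : Finset (((∀ i, V i) × W) × ((∀ i, V i) × W))), p.Prime →
      (∀ i, ∃ v, σ i v ≠ v) → (∀ i v, (σ i)^[p] v = v) → CornerFree A →
      (∀ i, ∀ P ∈ A, (onBlock i (σ i) P.1, onBlock i (σ i) P.2) ∈ A) →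
      Fintype.card ((∀ i, V i) × W) = 2 ^ n → ε * n ≤ t →
      (A.card : ℝ) ≤ 3 * (4 : ℝ) ^ ((1 - c) * n)) := by
  classical
  have h3 : ∀ (p t : ℕ) (V : Fin t → Type) (W : Type) [∀ i, AddCommGroup (V i)]
      [∀ i, Fintype (V i)] [AddCommGroup W] [Fintype W] (σ : ∀ i, V i ≃+ V i)
      (A : Finset (((∀ i, V i) × W) × ((∀ i, V i) × W))), p.Prime →
      (∀ i, ∃ v, σ i v ≠ v) → (∀ i v, (σ i)^[p] v = v) → CornerFree A →
      (∀ i, ∀ P ∈ A, (onBlock i (σ i) P.1, onBlock i (σ i) P.2) ∈ A) →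
      (A.card : ℝ) ≤ 3 * (24 / 25) ^ t * (Fintype.card ((∀ i, V i) × W) : ℝ) ^ 2 := by
    intro p t V W _ _ _ _ σ A hp h1 h2 hA hinv
    have : Fact p.Prime := ⟨hp⟩
    exact Pool.Agent.TH360.RS.blocks_bound (p := p) σ h1 h2 A hA hinv
  refine ⟨?_, ?_, h3, ?_⟩
  · intro p Γ G _ _ _ _ _ A hp hexp haff hA
    have : Fact p.Prime := ⟨hp⟩
    have h := Pool.Agent.TH360.RS.corner_dense (p := p) (Γ := Γ) (G := G) hexp haff A hA
    refine le_trans (le_of_eq ?_) h
    congr 1
    rw [Nat.card_eq_fintype_card, Fintype.card_subtype]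
    congr 1
    ext P
    rw [mem_filter, mem_filter]
    have e : Nat.card {Q : G × G // Q ∈ A ∧ Q ∈ MulAction.orbit Γ P} =
        (A.filter (fun Q => Q ∈ MulAction.orbit Γ P)).card := by
      rw [Nat.card_eq_fintype_card, Fintype.card_subtype]
      congr 1
      ext Q
      simp
    rw [e]
  · intro p Γ G _ _ _ _ _ A hp hexp haff hA hinv
    have : Fact p.Prime := ⟨hp⟩
    have h := Pool.Agent.TH360.RS.corner_action (p := p) (Γ := Γ) (G := G) hexp haff A hA hinv
    refine ⟨h, fun hfree r hr => h.trans (le_of_eq ?_)⟩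
    have hp2 : (2 : ℝ) ≤ p := by exact_mod_cast hp.two_le
    have hp0 : (0 : ℝ) < p := by linarith
    have hlog : Real.log p ≠ 0 := (Real.log_pos (by linarith)).ne'
    have horb : ∀ P : G × G, (Nat.card (MulAction.orbit Γ P) : ℝ) ^
        (-(1 / (18 * Real.log p)) : ℝ) = Real.exp (-(r : ℝ) / 18) := by
      intro P
      have h1 : Nat.card (MulAction.orbit Γ P) = p ^ r := by
        rw [← hr]
        refine (Nat.card_congr (Equiv.ofBijective
          (fun γ : Γ => (⟨γ • P, γ, rfl⟩ : MulAction.orbit Γ P)) ⟨?_, ?_⟩)).symm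
        · intro γ γ' hγ
          have h2 : γ • P = γ' • P := congr_arg Subtype.val hγ
          by_contra hne
          refine hfree (γ'⁻¹ * γ) (fun h4 => hne ?_) P ?_
          · exact (inv_mul_eq_one.1 h4).symm
          · rw [mul_smul, h2, inv_smul_smul]
        · rintro ⟨Q, γ, hγ⟩
          exact ⟨γ, Subtype.ext hγ⟩
      rw [h1]
      push_cast
      rw [Real.rpow_def_of_pos (by positivity), Real.log_pow]
      congr 1
      field_simp
    simp_rw [horb, sum_const, card_univ, Fintype.card_prod]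
    rw [nsmul_eq_mul]
    push_cast
    ring
  · intro ε hε
    have hlog : 0 < Real.logb 4 (25 / 24) := Real.logb_pos (by norm_num) (by norm_num)
    refine ⟨ε * Real.logb 4 (25 / 24), by positivity, ?_⟩
    intro p n t V W _ _ _ _ σ A hp h1 h2 hA hinv hcard ht
    refine (h3 p t V W σ A hp h1 h2 hA hinv).trans ?_
    rw [hcard]
    have e1 : ((24 : ℝ) / 25) = (4 : ℝ) ^ (-Real.logb 4 (25 / 24)) := by
      rw [Real.rpow_neg (by norm_num), Real.rpow_logb (by norm_num) (by norm_num) (by norm_num)]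
      norm_num
    have e2 : ((24 : ℝ) / 25) ^ t = (4 : ℝ) ^ (-Real.logb 4 (25 / 24) * t) := by
      rw [Real.rpow_mul (by norm_num), ← e1, Real.rpow_natCast]
    have e3 : (((2 ^ n : ℕ) : ℝ)) ^ 2 = (4 : ℝ) ^ (n : ℝ) := by
      rw [Real.rpow_natCast]
      push_cast
      rw [← pow_mul, mul_comm n 2, pow_mul]
      norm_num
    rw [e2, e3, mul_assoc, ← Real.rpow_add (by norm_num)]
    have : (4 : ℝ) ^ (-Real.logb 4 (25 / 24) * t + n) ≤
        (4 : ℝ) ^ ((1 - ε * Real.logb 4 (25 / 24)) * n) := by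
      apply Real.rpow_le_rpow_of_exponent_le (by norm_num)
      nlinarith
    linarith

end Pool.Agent.Results.MP_db4732_co.ElementaryAbelianSymmetry
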